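import Pool.Agent.H953Z.St

set_option autoImplicit false
open MeasureTheory Filter
open Pool.Agent.H953Z

namespace Pool.Agent.H124Z.Help461

lemma negMulLog_le {a q : ℝ} (ha : 0 ≤ a) (hq : 0 ≤ q) (h : 0 < a → 0 < q) :
    Real.negMulLog a ≤ a * (-Real.log q) + (q - a) := by
  rcases ha.eq_or_lt with h0 | h0
  · subst h0; simp [hq]
  · have hq' := h h0
    have h1 : Real.log (q / a) ≤ q / a - 1 := Real.log_le_sub_one_of_pos (div_pos hq' h0)
    rw [Real.log_div hq'.ne' h0.ne'] at h1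
    have h2 : a * (Real.log q - Real.log a) ≤ a * (q / a - 1) :=
      mul_le_mul_of_nonneg_left h1 ha
    have h3 : a * (q / a - 1) = q - a := by field_simp
    rw [Real.negMulLog]
    nlinarith

theorem thm_gibbs : S_gibbs := by
  intro X W _ _ ν _ Y Q l hY hQ hs hl hae
  classical
  have hpos : ∀ w, 0 < (ν (Y ⁻¹' {w})).toReal → 0 < Q w := by
    intro w hw
    by_contra hq
    have hq0 : Q w ≤ 0 := not_lt.mp hq
    have : ν (Y ⁻¹' {w}) = 0 := by
      refine measure_mono_null ?_ (ae_iff.mp hae)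
      intro z hz
      simp only [Set.mem_preimage, Set.mem_singleton_iff] at hz
      simp only [Set.mem_setOf_eq, hz, not_le]
      exact lt_of_le_of_lt hq0 (Real.exp_pos _)
    rw [this] at hw
    simp at hw
  have hfun : (fun z => -Real.log (Q (Y z))) =
      fun z => ∑ w, (Y ⁻¹' {w}).indicator (fun _ => -Real.log (Q w)) z := by
    funext z
    rw [Finset.sum_eq_single (Y z)]
    · simp
    · intro w _ hw
      rw [Set.indicator_of_notMem]
      simpa using Ne.symm hw
    · simp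
  have hint : ∀ w, Integrable ((Y ⁻¹' {w}).indicator (fun _ : X => -Real.log (Q w))) ν :=
    fun w => (integrable_const _).indicator (hY w)
  have hI : ∫ z, -Real.log (Q (Y z)) ∂ν = ∑ w, (ν (Y ⁻¹' {w})).toReal * (-Real.log (Q w)) := by
    rw [hfun, integral_finset_sum _ (fun w _ => hint w)]
    refine Finset.sum_congr rfl fun w _ => ?_
    rw [integral_indicator_const _ (hY w)]
    simp [Measure.real]
  have hInt : Integrable (fun z => -Real.log (Q (Y z))) ν := by
    rw [hfun]; exact integrable_finset_sum _ (fun w _ => hint w)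
  have hle : ∫ z, -Real.log (Q (Y z)) ∂ν ≤ ∫ z, l z ∂ν := by
    refine integral_mono_ae hInt hl ?_
    filter_upwards [hae] with z hz
    have := Real.log_le_log (Real.exp_pos _) hz
    rw [Real.log_exp] at this
    linarith
  have hsum : ∑ w, (ν (Y ⁻¹' {w})).toReal = 1 := by
    have h1 : (fun _ : X => (1 : ℝ)) = fun z => ∑ w, (Y ⁻¹' {w}).indicator (fun _ => (1 : ℝ)) z := by
      funext z
      rw [Finset.sum_eq_single (Y z)]
      · simp
      · intro w _ hw
        rw [Set.indicator_of_notMem]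
        simpa using Ne.symm hw
      · simp
    have h2 : ∫ _ : X, (1 : ℝ) ∂ν = 1 := by simp
    rw [h1, integral_finset_sum _ (fun w _ => (integrable_const _).indicator (hY w))] at h2
    rw [← h2]
    refine Finset.sum_congr rfl fun w _ => ?_
    rw [integral_indicator_const _ (hY w)]
    simp [Measure.real]
  calc ∑ w, Real.negMulLog (ν (Y ⁻¹' {w})).toReal
      ≤ ∑ w, ((ν (Y ⁻¹' {w})).toReal * (-Real.log (Q w)) + (Q w - (ν (Y ⁻¹' {w})).toReal)) :=
        Finset.sum_le_sum fun w _ => negMulLog_le ENNReal.toReal_nonneg (hQ w) (hpos w)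
    _ = ∫ z, -Real.log (Q (Y z)) ∂ν + (∑ w, Q w - 1) := by
        rw [Finset.sum_add_distrib, Finset.sum_sub_distrib, hI, hsum]
    _ ≤ ∫ z, l z ∂ν := by linarith

lemma tri1 (F G : ℝ × ℝ → ℝ × ℝ) (hF : IsD F) (hG : IsD G) : IsD (F ∘ G) := by
  refine ⟨hF.1.comp hG.1, hF.2.1.comp hG.2.1, fun z => ?_⟩
  rw [fderiv_comp z (hF.1.differentiable (by norm_num) _) (hG.1.differentiable (by norm_num) _)]
  exact (hF.2.2 _).comp (hG.2.2 _)

lemma exists_equiv (L : (ℝ × ℝ) →L[ℝ] (ℝ × ℝ)) (hL : Function.Injective L) :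
    ∃ e : (ℝ × ℝ) ≃L[ℝ] (ℝ × ℝ), (e : (ℝ × ℝ) →L[ℝ] (ℝ × ℝ)) = L := by
  have hs : Function.Surjective (L : (ℝ × ℝ) →ₗ[ℝ] (ℝ × ℝ)) :=
    LinearMap.injective_iff_surjective.mp hL
  refine ⟨(LinearEquiv.ofBijective (L : (ℝ × ℝ) →ₗ[ℝ] (ℝ × ℝ)) ⟨hL, hs⟩).toContinuousLinearEquiv, ?_⟩
  ext <;> simp

lemma tri2 (F : ℝ × ℝ → ℝ × ℝ) (hF : IsD F) :
    ∃ G, IsD G ∧ Function.LeftInverse G F ∧ Function.RightInverse G F := by
  choose e he using fun z => exists_equiv (fderiv ℝ F z) (hF.2.2 z)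
  have hstrict : ∀ z, HasStrictFDerivAt F (e z : (ℝ × ℝ) →L[ℝ] (ℝ × ℝ)) z := by
    intro z
    rw [he z]
    exact hF.1.contDiffAt.hasStrictFDerivAt (by norm_num)
  have hopen : IsOpenMap F := isOpenMap_of_hasStrictFDerivAt_equiv hstrict
  let H : (ℝ × ℝ) ≃ₜ (ℝ × ℝ) :=
    (Equiv.ofBijective F hF.2.1).toHomeomorphOfContinuousOpen hF.1.continuous hopen
  have hH : (H : ℝ × ℝ → ℝ × ℝ) = F := rfl
  have hc : ContDiff ℝ 1 (H.symm : ℝ × ℝ → ℝ × ℝ) := by
    refine H.contDiff_symm (f₀' := e) (fun z => ?_) ?_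
    · rw [hH]; exact (hstrict z).hasFDerivAt
    · rw [hH]; exact hF.1
  refine ⟨H.symm, ⟨hc, H.symm.bijective, fun z => ?_⟩, fun z => ?_, fun z => ?_⟩
  · have h1 : F ∘ (H.symm : ℝ × ℝ → ℝ × ℝ) = id := by
      funext w; rw [← hH]; simp
    have h2 := fderiv_comp (𝕜 := ℝ) z (hF.1.differentiable (by norm_num) (H.symm z))
      (hc.differentiable (by norm_num) z)
    rw [h1, fderiv_id] at h2
    intro v w hvw
    have h3 := congrArg (fun L : (ℝ × ℝ) →L[ℝ] (ℝ × ℝ) => L v) h2
    have h4 := congrArg (fun L : (ℝ × ℝ) →L[ℝ] (ℝ × ℝ) => L w) h2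
    simp only [ContinuousLinearMap.id_apply, ContinuousLinearMap.comp_apply] at h3 h4
    rw [h3, h4, hvw]
  · rw [← hH]; simp
  · rw [← hH]; simp

lemma line_bij (u : ℝ × ℝ → ℝ) (hu : ContDiff ℝ 1 u) (K : ℝ) (hK : ∀ z, |u z| ≤ K) (d : ℝ × ℝ)
    (hd : ∀ z, -1 < fderiv ℝ u z d) (z : ℝ × ℝ) :
    Function.Bijective fun t : ℝ => t + u (z + t • d) := by
  have hder : ∀ t : ℝ, HasDerivAt (fun t : ℝ => t + u (z + t • d))
      (1 + fderiv ℝ u (z + t • d) d) t := by
    intro t
    have h1 : HasDerivAt (fun t : ℝ => z + t • d) d t := by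
      simpa using ((hasDerivAt_id t).smul_const d).const_add z
    have h2 := ((hu.differentiable (by norm_num) (z + t • d)).hasFDerivAt).comp_hasDerivAt t h1
    exact (hasDerivAt_id t).add h2
  have hmono : StrictMono fun t : ℝ => t + u (z + t • d) := by
    refine strictMono_of_deriv_pos fun t => ?_
    rw [(hder t).deriv]
    linarith [hd (z + t • d)]
  have hcont : Continuous fun t : ℝ => t + u (z + t • d) :=
    continuous_iff_continuousAt.mpr fun t => (hder t).continuousAt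
  refine ⟨hmono.injective, hcont.surjective ?_ ?_⟩
  · refine tendsto_atTop_mono (f := fun t : ℝ => t + (-K)) (fun t => ?_)
      (tendsto_atTop_add_const_right _ _ tendsto_id)
    have := (abs_le.mp (hK (z + t • d))).1
    linarith
  · refine tendsto_atBot_mono (f := fun t : ℝ => t + K) (fun t => ?_)
      (tendsto_atBot_add_const_right _ _ tendsto_id)
    have := (abs_le.mp (hK (z + t • d))).2
    linarith

lemma tri3 (d : ℝ × ℝ) (u : ℝ × ℝ → ℝ) (hu : ContDiff ℝ 1 u) (K : ℝ) (hK : ∀ z, |u z| ≤ K)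
    (hd : ∀ z, -1 < fderiv ℝ u z d) : IsD fun z => z + u z • d := by
  refine ⟨contDiff_id.add (hu.smul contDiff_const), ⟨fun z w hzw => ?_, fun w => ?_⟩, fun z => ?_⟩
  · simp only at hzw
    by_cases hd0 : d = 0
    · simpa [hd0] using hzw
    have hw : w = z + (u z - u w) • d := by
      rw [sub_smul, ← add_sub_assoc, hzw]; simp
    have hb := (line_bij u hu K hK d hd z).1 (a₁ := 0) (a₂ := u z - u w) (by
      simp only [zero_smul, add_zero, zero_add]
      rw [← hw]; ring)
    rw [hw, ← hb]; simp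
  · obtain ⟨t, ht⟩ := (line_bij u hu K hK d hd w).2 0
    refine ⟨w + t • d, ?_⟩
    simp only at ht ⊢
    rw [add_assoc, ← add_smul, ht]; simp
  · have h1 : HasFDerivAt (fun z => z + u z • d)
        (ContinuousLinearMap.id ℝ (ℝ × ℝ) + (fderiv ℝ u z).smulRight d) z :=
      (hasFDerivAt_id z).add (((hu.differentiable (by norm_num) z).hasFDerivAt).smul_const d)
    rw [h1.fderiv]
    rw [injective_iff_map_eq_zero]
    intro v hv
    simp only [ContinuousLinearMap.add_apply, ContinuousLinearMap.id_apply,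
      ContinuousLinearMap.smulRight_apply] at hv
    have h2 := congrArg (fderiv ℝ u z) hv
    rw [map_add, map_smul, map_zero, smul_eq_mul] at h2
    have h3 : fderiv ℝ u z v = 0 := by
      have h4 : fderiv ℝ u z v * (1 + fderiv ℝ u z d) = 0 := by linarith
      rcases mul_eq_zero.mp h4 with h | h
      · exact h
      · linarith [hd z]
    simpa [h3] using hv

theorem thm_tri : S_tri :=
  ⟨tri1, tri2, fun p u hu ⟨K, hK⟩ hd => tri3 (dir p) u hu K hK hd⟩

end Pool.Agent.H124Z.Help461
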