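import Pool.Agent.H930Z.Dir.Spec

open MeasureTheory Set Filter Topology Real
open H930Z.Dir

noncomputable section

namespace H124Z.Stokes658

lemma clm_apply {F : Type} [NormedAddCommGroup F] [NormedSpace ℝ F] (L : ℝ × ℝ →L[ℝ] F)
    (v : ℝ × ℝ) : L v = v.1 • L (1, 0) + v.2 • L (0, 1) := by
  have : v = v.1 • ((1 : ℝ), (0 : ℝ)) + v.2 • ((0 : ℝ), (1 : ℝ)) := by ext <;> simp
  conv_lhs => rw [this]
  rw [map_add, map_smul, map_smul]

lemma fderiv_comp_apply (U : ℝ × ℝ → ℂ) (Γ : ℝ × ℝ → ℝ × ℝ) (w : ℝ × ℝ)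
    (hΓ : DifferentiableAt ℝ Γ w) (hU : DifferentiableAt ℝ U (Γ w)) (v : ℝ × ℝ) :
    fderiv ℝ (fun z => U (Γ z)) w v =
      ((fderiv ℝ Γ w v).1 : ℂ) * d1 U (Γ w) + ((fderiv ℝ Γ w v).2 : ℂ) * d2 U (Γ w) := by
  have h := fderiv_comp (𝕜 := ℝ) w hU hΓ
  have h2 : (fun z => U (Γ z)) = U ∘ Γ := rfl
  rw [h2, h, ContinuousLinearMap.comp_apply, clm_apply (fderiv ℝ U (Γ w))]
  simp [d1, d2]

lemma J_comp (U V : ℝ × ℝ → ℂ) (Γ : ℝ × ℝ → ℝ × ℝ) (w : ℝ × ℝ)
    (hΓ : DifferentiableAt ℝ Γ w) (hU : DifferentiableAt ℝ U (Γ w))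
    (hV : DifferentiableAt ℝ V (Γ w)) :
    J (fun z => U (Γ z)) (fun z => V (Γ z)) w = (jac Γ w : ℂ) * J U V (Γ w) := by
  have a1 := fderiv_comp_apply U Γ w hΓ hU (1, 0)
  have a2 := fderiv_comp_apply U Γ w hΓ hU (0, 1)
  have b1 := fderiv_comp_apply V Γ w hΓ hV (1, 0)
  have b2 := fderiv_comp_apply V Γ w hΓ hV (0, 1)
  have e1 : J (fun z => U (Γ z)) (fun z => V (Γ z)) w =
      fderiv ℝ (fun z => U (Γ z)) w (1, 0) * fderiv ℝ (fun z => V (Γ z)) w (0, 1) -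
      fderiv ℝ (fun z => U (Γ z)) w (0, 1) * fderiv ℝ (fun z => V (Γ z)) w (1, 0) := rfl
  have e2 : jac Γ w = (fderiv ℝ Γ w (1, 0)).1 * (fderiv ℝ Γ w (0, 1)).2 -
      (fderiv ℝ Γ w (1, 0)).2 * (fderiv ℝ Γ w (0, 1)).1 := rfl
  rw [e1, a1, a2, b1, b2, e2, J]
  push_cast
  ring

lemma contDiffAt_dir {v : ℝ × ℝ → ℂ} {x : ℝ × ℝ} (hv : ContDiffAt ℝ 2 v x) (e : ℝ × ℝ) :
    ContDiffAt ℝ 1 (fun y => fderiv ℝ v y e) x :=
  (hv.fderiv_right (m := 1) (by norm_num)).clm_apply contDiffAt_const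

lemma continuousAt_dir {v : ℝ × ℝ → ℂ} {x : ℝ × ℝ} (hv : ContDiffAt ℝ 1 v x) (e : ℝ × ℝ) :
    ContinuousAt (fun y => fderiv ℝ v y e) x :=
  ((hv.fderiv_right (m := 0) (by norm_num)).clm_apply contDiffAt_const).continuousAt

lemma fderiv_dir {v : ℝ × ℝ → ℂ} {x : ℝ × ℝ} (hv : ContDiffAt ℝ 2 v x) (e e' : ℝ × ℝ) :
    fderiv ℝ (fun y => fderiv ℝ v y e) x e' = fderiv ℝ (fderiv ℝ v) x e' e := by
  have hd : DifferentiableAt ℝ (fderiv ℝ v) x :=
    (hv.fderiv_right (m := 1) (by norm_num)).differentiableAt (by norm_num)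
  rw [fderiv_clm_apply hd (differentiableAt_const e)]
  simp

lemma continuousAt_J {u v : ℝ × ℝ → ℂ} {x : ℝ × ℝ} (hu : ContDiffAt ℝ 1 u x)
    (hv : ContDiffAt ℝ 1 v x) : ContinuousAt (J u v) x :=
  ((continuousAt_dir hu (1, 0)).mul (continuousAt_dir hv (0, 1))).sub
    ((continuousAt_dir hu (0, 1)).mul (continuousAt_dir hv (1, 0)))

lemma div_eq {u v : ℝ × ℝ → ℂ} {x : ℝ × ℝ} (hu : ContDiffAt ℝ 1 u x) (hv : ContDiffAt ℝ 2 v x) :
    fderiv ℝ (fun y => u y * d2 v y) x (1, 0) + fderiv ℝ (fun y => -(u y * d1 v y)) x (0, 1) =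
      J u v x := by
  have hud : DifferentiableAt ℝ u x := hu.differentiableAt (by norm_num)
  have h1 : DifferentiableAt ℝ (d1 v) x := (contDiffAt_dir hv (1, 0)).differentiableAt (by norm_num)
  have h2 : DifferentiableAt ℝ (d2 v) x := (contDiffAt_dir hv (0, 1)).differentiableAt (by norm_num)
  have e1 : fderiv ℝ (d1 v) x (0, 1) = fderiv ℝ (fderiv ℝ v) x (0, 1) (1, 0) :=
    fderiv_dir hv (1, 0) (0, 1)
  have e2 : fderiv ℝ (d2 v) x (1, 0) = fderiv ℝ (fderiv ℝ v) x (1, 0) (0, 1) :=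
    fderiv_dir hv (0, 1) (1, 0)
  have hs := (hv.isSymmSndFDerivAt (by simp)).eq (1, 0) (0, 1)
  rw [fderiv_fun_neg, fderiv_fun_mul hud h2, fderiv_fun_mul hud h1]
  simp only [ContinuousLinearMap.add_apply, ContinuousLinearMap.neg_apply,
    ContinuousLinearMap.smul_apply, smul_eq_mul, e1, e2, hs]
  simp only [J, d1, d2]
  ring

lemma green (u v : ℝ × ℝ → ℂ) (a b : ℝ × ℝ) (hle : a ≤ b)
    (hu : ∀ x ∈ Icc a b, ContDiffAt ℝ 1 u x) (hv : ∀ x ∈ Icc a b, ContDiffAt ℝ 2 v x) :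
    ∫ x in Icc a b, J u v x =
      (((∫ x in a.1..b.1, -(u (x, b.2) * d1 v (x, b.2))) -
        ∫ x in a.1..b.1, -(u (x, a.2) * d1 v (x, a.2))) +
          ∫ y in a.2..b.2, u (b.1, y) * d2 v (b.1, y)) -
        ∫ y in a.2..b.2, u (a.1, y) * d2 v (a.1, y) := by
  have hf : ∀ x ∈ Icc a b, ContDiffAt ℝ 1 (fun y => u y * d2 v y) x :=
    fun x hx => (hu x hx).mul (contDiffAt_dir (hv x hx) (0, 1))
  have hg : ∀ x ∈ Icc a b, ContDiffAt ℝ 1 (fun y => -(u y * d1 v y)) x :=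
    fun x hx => ((hu x hx).mul (contDiffAt_dir (hv x hx) (1, 0))).neg
  have hsub : ∀ x ∈ Ioo a.1 b.1 ×ˢ Ioo a.2 b.2, x ∈ Icc a b := fun x hx =>
    ⟨⟨hx.1.1.le, hx.2.1.le⟩, ⟨hx.1.2.le, hx.2.2.le⟩⟩
  have hJ : ContinuousOn (J u v) (Icc a b) := fun x hx =>
    (continuousAt_J (hu x hx) ((hv x hx).of_le (by norm_num))).continuousWithinAt
  have heq : EqOn (J u v) (fun x => fderiv ℝ (fun y => u y * d2 v y) x (1, 0) +
      fderiv ℝ (fun y => -(u y * d1 v y)) x (0, 1)) (Icc a b) :=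
    fun x hx => (div_eq (hu x hx) (hv x hx)).symm
  have h := integral_divergence_prod_Icc_of_hasFDerivAt_of_le (fun y => u y * d2 v y)
    (fun y => -(u y * d1 v y)) (fderiv ℝ (fun y => u y * d2 v y))
    (fderiv ℝ (fun y => -(u y * d1 v y))) a b hle
    (fun x hx => (hf x hx).continuousAt.continuousWithinAt)
    (fun x hx => (hg x hx).continuousAt.continuousWithinAt)
    (fun x hx => ((hf x (hsub x hx)).differentiableAt (by norm_num)).hasFDerivAt)
    (fun x hx => ((hg x (hsub x hx)).differentiableAt (by norm_num)).hasFDerivAt)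
    ((hJ.integrableOn_compact isCompact_Icc).congr_fun heq measurableSet_Icc)
  rw [← h]
  exact setIntegral_congr_fun measurableSet_Icc heq

/-- polar coordinates -/
def P (p : ℝ × ℝ) : ℝ × ℝ := (p.1 * Real.cos p.2, p.1 * Real.sin p.2)

lemma P_smooth : ContDiff ℝ 2 P := by
  unfold P
  fun_prop

lemma P_fderiv (p v : ℝ × ℝ) : fderiv ℝ P p v =
    (Real.cos p.2 * v.1 + -p.1 * Real.sin p.2 * v.2,
      Real.sin p.2 * v.1 + p.1 * Real.cos p.2 * v.2) := by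
  have h : HasFDerivAt P (fderivPolarCoordSymm p) p := hasFDerivAt_polarCoord_symm p
  rw [h.fderiv]
  simp [fderivPolarCoordSymm, Matrix.toLin_finTwoProd_apply]

lemma jac_P (p : ℝ × ℝ) : jac P p = p.1 := by
  simp only [jac, d1, d2, P_fderiv]
  have := Real.cos_sq_add_sin_sq p.2
  linear_combination p.1 * this

lemma P_sq (p : ℝ × ℝ) : (P p).1 ^ 2 + (P p).2 ^ 2 = p.1 ^ 2 := by
  simp only [P]
  have := Real.cos_sq_add_sin_sq p.2
  linear_combination p.1 ^ 2 * this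

lemma isOpen_disc : IsOpen disc := isOpen_lt (by fun_prop) continuous_const

lemma disc_sub : disc ⊆ cdisc := fun w hw =>
  show w.1 ^ 2 + w.2 ^ 2 ≤ 1 from le_of_lt (show w.1 ^ 2 + w.2 ^ 2 < 1 from hw)

lemma isCompact_cdisc : IsCompact cdisc := by
  refine (isCompact_Icc (a := ((-1 : ℝ), (-1 : ℝ))) (b := ((1 : ℝ), (1 : ℝ)))).of_isClosed_subset
    (isClosed_le (by fun_prop) continuous_const) ?_
  intro w hw
  have hw' : w.1 ^ 2 + w.2 ^ 2 ≤ 1 := hw
  refine ⟨⟨?_, ?_⟩, ⟨?_, ?_⟩⟩ <;> simp only <;> nlinarith [sq_nonneg w.1, sq_nonneg w.2]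

lemma polar (H : ℝ × ℝ → ℂ) :
    ∫ w in disc, H w = ∫ p in Icc ((0 : ℝ), -π) ((1 : ℝ), π), (p.1 : ℂ) * H (P p) := by
  rw [← integral_indicator isOpen_disc.measurableSet, ← integral_comp_polarCoord_symm]
  have hm : MeasurableSet (Ioo (0 : ℝ) 1 ×ˢ Ioo (-π) π) := measurableSet_Ioo.prod measurableSet_Ioo
  have h1 : EqOn (fun p : ℝ × ℝ => p.1 • disc.indicator H (polarCoord.symm p))
      ((Ioo (0 : ℝ) 1 ×ˢ Ioo (-π) π).indicator fun p => (p.1 : ℂ) * H (P p)) polarCoord.target := by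
    intro p hp
    have hp1 : 0 < p.1 := hp.1
    have hp2 : p.2 ∈ Ioo (-π) π := hp.2
    have hP : polarCoord.symm p = P p := rfl
    simp only [hP]
    by_cases h : p.1 < 1
    · have hd : P p ∈ disc := by
        show (P p).1 ^ 2 + (P p).2 ^ 2 < 1
        rw [P_sq]; nlinarith
      rw [indicator_of_mem hd, indicator_of_mem (show p ∈ Ioo (0 : ℝ) 1 ×ˢ Ioo (-π) π from ⟨⟨hp1, h⟩, hp2⟩)]
      simp
    · have hd : P p ∉ disc := by
        intro hd
        have : (P p).1 ^ 2 + (P p).2 ^ 2 < 1 := hd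
        rw [P_sq] at this; nlinarith
      rw [indicator_of_notMem hd, indicator_of_notMem (fun hh => h hh.1.2)]
      simp
  rw [setIntegral_congr_fun polarCoord.open_target.measurableSet h1, setIntegral_indicator hm]
  have h2 : polarCoord.target ∩ (Ioo (0 : ℝ) 1 ×ˢ Ioo (-π) π) = Ioo (0 : ℝ) 1 ×ˢ Ioo (-π) π :=
    inter_eq_right.mpr fun p hp => ⟨hp.1.1, hp.2⟩
  rw [h2, ← Icc_prod_Icc]
  exact setIntegral_congr_set (Measure.set_prod_ae_eq Ioo_ae_eq_Icc Ioo_ae_eq_Icc)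

theorem stokesD : S_stokesD := by
  intro U V hU hV
  have hmem : ∀ p ∈ Icc ((0 : ℝ), -π) ((1 : ℝ), π), P p ∈ cdisc := by
    intro p hp
    have h0 : (0 : ℝ) ≤ p.1 := hp.1.1
    have h1 : p.1 ≤ (1 : ℝ) := hp.2.1
    show (P p).1 ^ 2 + (P p).2 ^ 2 ≤ 1
    rw [P_sq]; nlinarith
  have hPd : ∀ p, DifferentiableAt ℝ P p := fun p => P_smooth.differentiable (by norm_num) p
  have hu : ∀ p ∈ Icc ((0 : ℝ), -π) ((1 : ℝ), π), ContDiffAt ℝ 1 (fun z => U (P z)) p :=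
    fun p hp => (hU _ (hmem p hp)).comp p (P_smooth.of_le (by norm_num)).contDiffAt
  have hv : ∀ p ∈ Icc ((0 : ℝ), -π) ((1 : ℝ), π), ContDiffAt ℝ 2 (fun z => V (P z)) p :=
    fun p hp => (hV _ (hmem p hp)).comp p P_smooth.contDiffAt
  have hVd : ∀ p ∈ Icc ((0 : ℝ), -π) ((1 : ℝ), π), DifferentiableAt ℝ V (P p) :=
    fun p hp => (hV _ (hmem p hp)).differentiableAt (by norm_num)
  have hpi : -π ≤ π := by linarith [Real.pi_pos]
  have hle : ((0 : ℝ), -π) ≤ ((1 : ℝ), π) := ⟨zero_le_one, hpi⟩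
  have h1 : ∫ p in Icc ((0 : ℝ), -π) ((1 : ℝ), π), (p.1 : ℂ) * J U V (P p) =
      ∫ p in Icc ((0 : ℝ), -π) ((1 : ℝ), π), J (fun z => U (P z)) (fun z => V (P z)) p := by
    refine setIntegral_congr_fun measurableSet_Icc fun p hp => ?_
    beta_reduce
    rw [J_comp U V P p (hPd p) ((hU _ (hmem p hp)).differentiableAt (by norm_num)) (hVd p hp),
      jac_P]
  rw [polar, h1, green _ _ _ _ hle hu hv]
  have e1 : ∫ x in (0 : ℝ)..1, -(U (P (x, π)) * d1 (fun z => V (P z)) (x, π)) =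
      ∫ x in (0 : ℝ)..1, -(U (P (x, -π)) * d1 (fun z => V (P z)) (x, -π)) := by
    refine intervalIntegral.integral_congr fun x hx => ?_
    rw [uIcc_of_le zero_le_one] at hx
    have hPP : P (x, -π) = P (x, π) := by simp [P]
    simp only [d1]
    rw [fderiv_comp_apply V P _ (hPd _) (hVd (x, π) ⟨⟨hx.1, hpi⟩, ⟨hx.2, le_rfl⟩⟩),
      fderiv_comp_apply V P _ (hPd _) (hVd (x, -π) ⟨⟨hx.1, le_rfl⟩, ⟨hx.2, hpi⟩⟩), hPP,
      P_fderiv, P_fderiv]
    simp
  have e2 : ∫ y in (-π)..π, U (P (0, y)) * d2 (fun z => V (P z)) (0, y) = 0 := by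
    rw [← intervalIntegral.integral_zero (a := -π) (b := π) (μ := volume) (E := ℂ)]
    refine intervalIntegral.integral_congr fun y hy => ?_
    rw [uIcc_of_le hpi] at hy
    simp only [d2]
    rw [fderiv_comp_apply V P _ (hPd _) (hVd (0, y) ⟨⟨le_rfl, hy.1⟩, ⟨zero_le_one, hy.2⟩⟩),
      P_fderiv]
    simp
  have e3 : ∫ y in (-π)..π, U (P (1, y)) * d2 (fun z => V (P z)) (1, y) =
      ∫ θ in (-π)..π, U (cs θ) * deriv (fun t => V (cs t)) θ := by
    refine intervalIntegral.integral_congr fun y hy => ?_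
    rw [uIcc_of_le hpi] at hy
    have hPc : ∀ t, P (1, t) = cs t := fun t => by simp [P, cs]
    have hd : DifferentiableAt ℝ (fun z => V (P z)) (1, y) :=
      (hv (1, y) ⟨⟨zero_le_one, hy.1⟩, ⟨le_rfl, hy.2⟩⟩).differentiableAt (by norm_num)
    have hl : HasDerivAt (fun t : ℝ => ((1 : ℝ), t)) ((0 : ℝ), (1 : ℝ)) y :=
      (hasDerivAt_const y (1 : ℝ)).prodMk (hasDerivAt_id y)
    have hc := hd.hasFDerivAt.comp_hasDerivAt y hl
    have hfun : (fun t => V (cs t)) = (fun z => V (P z)) ∘ fun t : ℝ => ((1 : ℝ), t) := by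
      funext t; simp [hPc]
    beta_reduce
    rw [hfun, hc.deriv, hPc]
    rfl
  beta_reduce
  rw [e1, e2, e3]
  ring

lemma det_eq (L : ℝ × ℝ →L[ℝ] ℝ × ℝ) :
    L.det = (L (1, 0)).1 * (L (0, 1)).2 - (L (1, 0)).2 * (L (0, 1)).1 := by
  have h : L = (Matrix.toLin (Module.Basis.finTwoProd ℝ) (Module.Basis.finTwoProd ℝ)
      !![(L (1, 0)).1, (L (0, 1)).1; (L (1, 0)).2, (L (0, 1)).2]).toContinuousLinearMap := by
    refine ContinuousLinearMap.ext fun v => ?_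
    rw [clm_apply L v]
    simp only [LinearMap.coe_toContinuousLinearMap', Matrix.toLin_finTwoProd_apply]
    ext <;> simp <;> ring
  conv_lhs => rw [h]
  rw [LinearMap.det_toContinuousLinearMap, LinearMap.det_toLin, Matrix.det_fin_two_of]
  ring

theorem cov : S_cov := by
  intro Γ hΓ H
  rw [integral_image_eq_integral_abs_det_fderiv_smul volume isOpen_disc.measurableSet
    (f' := fderiv ℝ Γ)
    (fun x _ => (hΓ.smooth.differentiable (by norm_num) x).hasFDerivAt.hasFDerivWithinAt)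
    (hΓ.inj.mono disc_sub)]
  refine setIntegral_congr_fun isOpen_disc.measurableSet fun w hw => ?_
  have h : (fderiv ℝ Γ w).det = jac Γ w := det_eq _
  beta_reduce
  rw [h, abs_of_pos (hΓ.pos w (disc_sub hw)), smul_eq_mul]

theorem stokes : S_stokes := by
  intro Γ hΓ U V hU hV
  have hu : ContDiff ℝ 1 fun z => U (Γ z) := hU.comp (hΓ.smooth.of_le (by norm_num))
  have hv : ContDiff ℝ 2 fun z => V (Γ z) := hV.comp (hΓ.smooth.of_le (by norm_num))
  have hS := stokesD (fun z => U (Γ z)) (fun z => V (Γ z)) (fun _ _ => hu.contDiffAt)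
    (fun _ _ => hv.contDiffAt)
  have hJc : Continuous (J (fun z => U (Γ z)) (fun z => V (Γ z))) :=
    continuous_iff_continuousAt.mpr fun x =>
      continuousAt_J hu.contDiffAt (hv.of_le (by norm_num)).contDiffAt
  have hI : IntegrableOn (J (fun z => U (Γ z)) (fun z => V (Γ z))) disc :=
    (hJc.continuousOn.integrableOn_compact isCompact_cdisc).mono_set disc_sub
  have hcs : ContDiff ℝ 1 cs := by
    unfold cs
    fun_prop
  have hc2 : Continuous fun θ => U (Γ (cs θ)) * deriv (fun t => V (Γ (cs t))) θ :=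
    (hu.continuous.comp hcs.continuous).mul
      (((hv.of_le (by norm_num)).comp hcs).continuous_deriv le_rfl)
  have h1 : ∫ w in disc, jac Γ w * (J U V (Γ w)).im =
      ∫ w in disc, (J (fun z => U (Γ z)) (fun z => V (Γ z)) w).im := by
    refine setIntegral_congr_fun isOpen_disc.measurableSet fun w _ => ?_
    beta_reduce
    rw [J_comp U V Γ w (hΓ.smooth.differentiable (by norm_num) w)
      (hU.differentiable (by norm_num) _) (hV.differentiable (by norm_num) _)]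
    simp
  rw [cov Γ hΓ (fun x => (J U V x).im), h1]
  have h2 := Complex.imCLM.integral_comp_comm hI
  have h3 := Complex.imCLM.intervalIntegral_comp_comm (μ := volume) (a := -π) (b := π)
    (hc2.intervalIntegrable _ _)
  simp only [Complex.imCLM_apply] at h2 h3
  rw [h2, h3, hS]

end H124Z.Stokes658
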